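import Pool.Agent.H55.BP.Targets

/-!
# Row SL of bpl_modules: straight line drawings (helper79)
-/

set_option autoImplicit false

namespace Pool.Agent.H79.BPL

open Pool.Agent.H55.BP

/-- the straight arcs -/
noncomputable def ln (a b : ℂ) (t : ℝ) : ℂ := ((1 - t : ℝ) : ℂ) * a + (t : ℂ) * b

lemma ln_re (a b : ℂ) (t : ℝ) : (ln a b t).re = (1 - t) * a.re + t * b.re := by
  unfold ln
  rw [Complex.add_re, Complex.re_ofReal_mul, Complex.re_ofReal_mul]

lemma ln_im (a b : ℂ) (t : ℝ) : (ln a b t).im = (1 - t) * a.im + t * b.im := by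
  unfold ln
  rw [Complex.add_im, Complex.im_ofReal_mul, Complex.im_ofReal_mul]

lemma ori_ln (p q a b : ℂ) (t : ℝ) :
    ori p q (ln a b t) = (1 - t) * ori p q a + t * ori p q b := by
  unfold ori
  rw [ln_re, ln_im]
  ring

lemma ori_ln_self (a b : ℂ) (t : ℝ) : ori a b (ln a b t) = 0 := by
  unfold ori
  rw [ln_re, ln_im]
  ring

lemma ori_self (a b : ℂ) : ori a b a = 0 := by
  unfold ori
  ring

lemma ori_self' (a b : ℂ) : ori a b b = 0 := by
  unfold ori
  ring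

lemma ori_swap (a b c : ℂ) : ori b a c = - ori a b c := by
  unfold ori
  ring

lemma ln_rev (a b : ℂ) (t : ℝ) : ln b a t = ln a b (1 - t) := by
  unfold ln
  push_cast
  ring

lemma img_symm {a b z : ℂ} (h : z ∈ ln a b '' Set.Ioo 0 1) : z ∈ ln b a '' Set.Ioo 0 1 := by
  obtain ⟨t, ⟨h0, h1⟩, rfl⟩ := h
  refine ⟨1 - t, ⟨by linarith, by linarith⟩, ?_⟩
  rw [ln_rev, sub_sub_cancel]

/-- two segments with a common end and no common line do not meet -/
lemma no_common {a b d z : ℂ} (h : ori a b d ≠ 0) (h1 : z ∈ ln a b '' Set.Ioo 0 1)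
    (h2 : z ∈ ln a d '' Set.Ioo 0 1) : False := by
  obtain ⟨t, -, rfl⟩ := h1
  obtain ⟨s, hs, hst⟩ := h2
  have h3 := ori_ln a b a d s
  rw [hst, ori_ln_self, ori_self] at h3
  have h4 : s * ori a b d = 0 := by linarith
  rcases mul_eq_zero.1 h4 with h5 | h5
  · exact hs.1.ne' h5
  · exact h h5

lemma not_sep1 {a b c d z : ℂ} (h1 : z ∈ ln a b '' Set.Ioo 0 1) (h2 : z ∈ ln c d '' Set.Ioo 0 1) :
    ¬ (0 < ori a b c ∧ 0 < ori a b d) ∧ ¬ (ori a b c < 0 ∧ ori a b d < 0) := by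
  obtain ⟨t, -, rfl⟩ := h1
  obtain ⟨s, hs, hst⟩ := h2
  have h3 := ori_ln a b c d s
  rw [hst, ori_ln_self] at h3
  have hs0 : 0 < s := hs.1
  have hs1 : 0 < 1 - s := by linarith [hs.2]
  constructor
  · rintro ⟨h4, h5⟩
    have := mul_pos hs1 h4
    have := mul_pos hs0 h5
    linarith
  · rintro ⟨h4, h5⟩
    have := mul_neg_of_pos_of_neg hs1 h4
    have := mul_neg_of_pos_of_neg hs0 h5
    linarith

lemma not_sep {a b c d z : ℂ} (h1 : z ∈ ln a b '' Set.Ioo 0 1) (h2 : z ∈ ln c d '' Set.Ioo 0 1) :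
    ¬ Pool.Agent.H55.BP.Sep a b c d := by
  have h3 := not_sep1 h1 h2
  have h4 := not_sep1 h2 h1
  unfold Pool.Agent.H55.BP.Sep
  tauto

/-- two segments not on a common line have at most one common point -/
lemma unique {a b c d z z' : ℂ} (h : ori c d a ≠ 0) (h1 : z ∈ ln a b '' Set.Ioo 0 1)
    (h2 : z ∈ ln c d '' Set.Ioo 0 1) (h1' : z' ∈ ln a b '' Set.Ioo 0 1)
    (h2' : z' ∈ ln c d '' Set.Ioo 0 1) : z = z' := by
  obtain ⟨t, ht, rfl⟩ := h1
  obtain ⟨t', ht', rfl⟩ := h1'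
  obtain ⟨s, -, hs⟩ := h2
  obtain ⟨s', -, hs'⟩ := h2'
  have h3 := ori_ln c d a b t
  rw [← hs, ori_ln_self] at h3
  have h4 := ori_ln c d a b t'
  rw [← hs', ori_ln_self] at h4
  have h5 : (t' - t) * ori c d a = 0 := by
    have e1 : t' * ((1 - t) * ori c d a + t * ori c d b) -
        t * ((1 - t') * ori c d a + t' * ori c d b) = (t' - t) * ori c d a := by ring
    rw [← h3, ← h4] at e1
    linarith
  rcases mul_eq_zero.1 h5 with h6 | h6
  · rw [show t = t' by linarith]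
  · exact absurd h6 h

lemma ln_inj {a b : ℂ} (h : a ≠ b) {s t : ℝ} (hst : ln a b s = ln a b t) : s = t := by
  by_contra hne
  apply h
  unfold ln at hst
  push_cast at hst
  have h1 : ((s : ℂ) - t) * (b - a) = 0 := by linear_combination hst
  rcases mul_eq_zero.1 h1 with h2 | h2
  · exact absurd (Complex.ofReal_injective (sub_eq_zero.1 h2)) hne
  · exact (sub_eq_zero.1 h2).symm

lemma ln_zero (a b : ℂ) : ln a b 0 = a := by
  unfold ln
  simp

lemma ln_one (a b : ℂ) : ln a b 1 = b := by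
  unfold ln
  simp

section
variable {V : Type} {G : SimpleGraph V} {P : V → ℂ}

lemma cross_ne (ho : ∀ u v w, G.Adj u v → w ≠ u → w ≠ v → ori (P u) (P v) (P w) ≠ 0)
    {a b d : V} {z : ℂ} (hab : G.Adj a b) (had : G.Adj a d) (hbd : b ≠ d)
    (h1 : z ∈ ln (P a) (P b) '' Set.Ioo 0 1) (h2 : z ∈ ln (P a) (P d) '' Set.Ioo 0 1) : False :=
  no_common (ho a b d hab had.ne' (Ne.symm hbd)) h1 h2

/-- the ends of crossing edges are distinct -/
lemma distinct (ho : ∀ u v w, G.Adj u v → w ≠ u → w ≠ v → ori (P u) (P v) (P w) ≠ 0)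
    {a b c d : V} {z : ℂ} (hab : G.Adj a b) (hcd : G.Adj c d) (hne : s(a, b) ≠ s(c, d))
    (h1 : z ∈ ln (P a) (P b) '' Set.Ioo 0 1) (h2 : z ∈ ln (P c) (P d) '' Set.Ioo 0 1) :
    a ≠ c ∧ a ≠ d ∧ b ≠ c ∧ b ≠ d := by
  refine ⟨?_, ?_, ?_, ?_⟩
  · rintro rfl
    refine cross_ne ho hab hcd ?_ h1 h2
    rintro rfl
    exact hne rfl
  · rintro rfl
    refine cross_ne ho hab hcd.symm ?_ h1 (img_symm h2)
    rintro rfl
    exact hne Sym2.eq_swap
  · rintro rfl
    refine cross_ne ho hab.symm hcd ?_ (img_symm h1) h2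
    rintro rfl
    exact hne Sym2.eq_swap
  · rintro rfl
    refine cross_ne ho hab.symm hcd.symm ?_ (img_symm h1) (img_symm h2)
    rintro rfl
    exact hne rfl

lemma img_sym2 {a b a' b' : V} {z : ℂ} (h : s(a', b') = s(a, b))
    (hz : z ∈ ln (P a') (P b') '' Set.Ioo 0 1) : z ∈ ln (P a) (P b) '' Set.Ioo 0 1 := by
  rcases Sym2.eq_iff.1 h with ⟨rfl, rfl⟩ | ⟨rfl, rfl⟩
  · exact hz
  · exact img_symm hz

lemma cross_maps (ho : ∀ u v w, G.Adj u v → w ≠ u → w ≠ v → ori (P u) (P v) (P w) ≠ 0) :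
    Set.MapsTo Prod.fst (crossSet G fun u v t => ln (P u) (P v) t) (badPairs G P) := by
  rintro ⟨x, z⟩ ⟨a, b, c, d, hab, hcd, hne, hx, h1, h2⟩
  obtain ⟨e1, e2, e3, e4⟩ := distinct ho hab hcd hne h1 h2
  exact ⟨a, b, c, d, hab, hcd, e1, e2, e3, e4, hx, not_sep h1 h2⟩

lemma cross_inj (ho : ∀ u v w, G.Adj u v → w ≠ u → w ≠ v → ori (P u) (P v) (P w) ≠ 0) :
    Set.InjOn Prod.fst (crossSet G fun u v t => ln (P u) (P v) t) := by
  rintro ⟨x, z⟩ ⟨a, b, c, d, hab, hcd, hne, hx, h1, h2⟩ ⟨x', z'⟩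
    ⟨a', b', c', d', hab', hcd', hne', hx', h1', h2'⟩ hxx
  have hxx' : x = x' := hxx
  subst hxx'
  obtain ⟨e1, e2, e3, e4⟩ := distinct ho hab hcd hne h1 h2
  have hh : s(s(a, b), s(c, d)) = s(s(a', b'), s(c', d')) := hx.symm.trans hx'
  have hor : ori (P c) (P d) (P a) ≠ 0 := ho c d a hcd e1 e2
  rcases Sym2.eq_iff.1 hh with ⟨g1, g2⟩ | ⟨g1, g2⟩
  · have hz : z = z' := unique hor h1 h2 (img_sym2 g1.symm h1') (img_sym2 g2.symm h2')
    rw [hz]
  · have hz : z = z' := unique hor h1 h2 (img_sym2 g1.symm h2') (img_sym2 g2.symm h1')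
    rw [hz]

end

theorem pf_SL : T_SL := by
  intro V _ G P hP ho
  have hfin : (badPairs G P).Finite := Set.toFinite _
  have hfin' : (crossSet G fun u v t => ln (P u) (P v) t).Finite :=
    Set.Finite.of_injOn (cross_maps ho) (cross_inj ho) hfin
  refine ⟨{
    pt := P
    arc := fun u v t => ln (P u) (P v) t
    pt_inj := hP
    cont := ?_
    zero := fun u v _ => ln_zero _ _
    one := fun u v _ => ln_one _ _
    rev := fun u v _ t _ => ln_rev _ _ _
    inj := ?_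
    avoid := ?_
    fin := hfin' }, ?_⟩
  · intro u v _
    refine Continuous.continuousOn ?_
    unfold ln
    fun_prop
  · intro u v huv s _ t _ hst
    exact ln_inj (hP.ne huv.ne) hst
  · intro u v huv t ht w hw
    have hne := hP.ne huv.ne
    by_cases h1 : w = u
    · subst h1
      have := ln_inj hne (hw.trans (ln_zero (P w) (P v)).symm)
      exact ht.1.ne' this
    · by_cases h2 : w = v
      · subst h2
        have := ln_inj hne (hw.trans (ln_one (P u) (P w)).symm)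
        exact ht.2.ne this
      · apply ho u v w huv h1 h2
        rw [← hw]
        exact ori_ln_self _ _ _
  · exact Set.ncard_le_ncard_of_injOn Prod.fst (cross_maps ho) (cross_inj ho) hfin

end Pool.Agent.H79.BPL
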